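import Pool.Agent.G02.Stmts

/-!
# Squad G02, row ARW: type W
-/

set_option autoImplicit false

namespace Pool.Agent.G02.H58

theorem arw (arv : ArvStmt) (iso : IsoStmt) : ArwStmt := by
  intro k hk h2
  have h := arv (-2 * k) (mul_ne_zero (by norm_num) hk) (by
    intro h
    apply h2
    have e : -(-2 * k) = 2 * k := by ring
    rwa [e] at h)
  have h4 : ∀ t ∈ {t : ℚ | Gd (-2 * k) t}, t - 4 ≠ 0 := by
    intro t ht h0
    apply ht.2.2.1
    rw [h0, mul_zero]
    exact IsSquare.zero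
  have hinj : Set.InjOn (fun t : ℚ => 4 * t / (t - 4)) {t : ℚ | Gd (-2 * k) t} := by
    intro t ht s hs hts
    have h5 := h4 t ht
    have h6 := h4 s hs
    have h7 : 4 * t / (t - 4) = 4 * s / (s - 4) := hts
    rw [div_eq_div_iff h5 h6] at h7
    linarith
  refine (h.image hinj).mono ?_
  rintro _ ⟨t, ht, rfl⟩
  have h5 := h4 t ht
  show Gd (k * (4 * t / (t - 4) - 4)) (4 * t / (t - 4))
  refine iso.2 (-2 * k) t _ (4 / (t - 4)) (div_ne_zero (by norm_num) h5) ?_ ht
  field_simp
  ring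

end Pool.Agent.G02.H58
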