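import Pool.Agent.G02.StmtsR

/-!
# G02, row VR2: recipe B for `k = -1`, the curve `V'`
-/

set_option autoImplicit false

namespace Pool.Agent.G02.H58

open Pool.Agent.NJ

private theorem ndv {p l : ℕ} (hp : p.Prime) (hl : l.Prime) (h : p ≠ l) : ¬ (p : ℤ) ∣ (l : ℤ) := by
  intro h1
  have h2 : p ∣ l := by exact_mod_cast h1
  exact h ((Nat.prime_dvd_prime_iff_eq hp hl).1 h2)

theorem vr2 (hSUB : SubStmt) (hRLB : RlbStmt) (hLA : LaStmt) (hLE : LeStmt) (hREA : ReaStmt)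
    (hSQF : NJ.SQFStmt) : Vr2Stmt := by
  intro p q r hR d M e N B hQ hpd
  have : Fact p.Prime := ⟨hR.pp⟩
  have : Fact q.Prime := ⟨hR.pq⟩
  have : Fact r.Prime := ⟨hR.pr⟩
  obtain ⟨hr8, s, hS⟩ := hRLB (-1) p q r hR
  have hpI : Prime (p : ℤ) := Nat.prime_iff_prime_int.1 hR.pp
  have hqI : Prime (q : ℤ) := Nat.prime_iff_prime_int.1 hR.pq
  have zp : (0 : ℤ) < p := by exact_mod_cast hR.pp.pos
  have zq : (0 : ℤ) < q := by exact_mod_cast hR.pq.pos
  have zr : (0 : ℤ) < r := by exact_mod_cast hR.pr.pos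
  have hp2 : ¬ (p : ℤ) ∣ 2 := by
    have := ndv hR.pp Nat.prime_two hS.p2
    exact_mod_cast this
  have hq2 : ¬ (q : ℤ) ∣ 2 := by
    have := ndv hR.pq Nat.prime_two hS.q2
    exact_mod_cast this
  have hpq := ndv hR.pp hR.pq hS.npq
  have hpr := ndv hR.pp hR.pr hS.npr
  have hqp := ndv hR.pq hR.pp hS.npq.symm
  have hqr := ndv hR.pq hR.pr hS.nqr
  have hab : (-(4 * p * q) : ℤ) ^ 2 - 4 * (4 * p * q ^ 2 * r) = (q : ℤ) ^ 3 * (-(32 * p)) := by
    rw [hR.hr]; ring
  -- the sign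
  have hd0 : d ≠ 0 := hQ.sqf.ne_zero
  have hd : 0 < d := by
    by_contra hd
    have hd' : d < 0 := lt_of_le_of_ne (not_lt.1 hd) hd0
    have h1 := (hREA _ _ d M e N B hQ hd' (by positivity)).2
    rw [hab] at h1
    have h2 : 0 < (q : ℤ) ^ 3 * (32 * p) := by positivity
    linarith
  -- the support
  have hQ' : Qt (4 * (-1) * p * q) (4 * (-1) ^ 2 * p * q ^ 2 * r) d M e N B := by
    have e1 : (4 * (-1) * p * q : ℤ) = -(4 * p * q) := by ring
    have e2 : (4 * (-1) ^ 2 * p * q ^ 2 * r : ℤ) = 4 * p * q ^ 2 * r := by ring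
    rw [e1, e2]
    exact hQ
  have hsup := (hSUB (-1) p q r hR d M e N B).2 hQ'
  obtain ⟨ε, hε, hd8⟩ := (hSQF d q r hQ.sqf hR.pq hR.pr hS.q2 hS.r2 hS.nqr).2 (by
    intro l hl hld
    rcases hsup l hl hld with h | h | h | h
    · exact Or.inl h
    · exact absurd (h ▸ hld) hpd
    · exact Or.inr (Or.inl h)
    · exact Or.inr (Or.inr h))
  have hqr0 : (0 : ℤ) < q * r := mul_pos zq zr
  have hε1 : ε = 1 := by
    rcases hε with h1 | h1
    · exact h1
    · exfalso
      subst h1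
      rcases hd8 with h1 | h1 | h1 | h1 | h1 | h1 | h1 | h1 <;> rw [h1] at hd <;> linarith
  subst hε1
  -- the place p
  have lp : legendreSym p d = 1 := by
    refine hLA _ _ d M e N B hQ p hS.p2 hpd (Or.inl ⟨⟨-(4 * q), by ring⟩,
      ⟨4 * q ^ 2 * r, by ring⟩, ?_⟩)
    intro h
    have h' : (p : ℤ) ∣ 2 * 2 * q ^ 2 * r := by
      have h3 : (p : ℤ) * p ∣ p * (2 * 2 * q ^ 2 * r) := by
        have e1 : (p : ℤ) * (2 * 2 * q ^ 2 * r) = 4 * p * q ^ 2 * r := by ring
        rw [e1, ← pow_two]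
        exact h
      exact (mul_dvd_mul_iff_left zp.ne').1 h3
    rcases hpI.dvd_or_dvd h' with h4 | h4
    · rcases hpI.dvd_or_dvd h4 with h5 | h5
      · rcases hpI.dvd_or_dvd h5 with h6 | h6 <;> exact hp2 h6
      · exact hpq (hpI.dvd_of_dvd_pow h5)
    · exact hpr h4
  -- the place q
  have h4p : ∀ c : ℤ, (q : ℤ) ∣ c * p → (q : ℤ) ∣ c := by
    intro c hc
    rcases hqI.dvd_or_dvd hc with h5 | h5
    · exact h5
    · exact absurd h5 hqp
  have lq := hLE _ _ d M e N B hQ q (-(4 * p)) (4 * p * r) (-(32 * p)) hS.q2 (by ring) (by ring)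
    hab (by
      rw [dvd_neg]
      intro h
      have h1 := h4p 4 h
      have h2 : (q : ℤ) ∣ 2 ^ 2 := by norm_num; exact h1
      exact hq2 (hqI.dvd_of_dvd_pow h2)) (by
      rw [dvd_neg]
      intro h
      have h1 := h4p 32 h
      have h2 : (q : ℤ) ∣ 2 ^ 5 := by norm_num; exact h1
      exact hq2 (hqI.dvd_of_dvd_pow h2))
  -- symbols
  have s1 := hS.one
  have p2' : legendreSym p 2 = -1 := by
    rw [legendreSym.at_two hS.p2, ZMod.χ₈_nat_eq_if_mod_eight]
    have := hR.mp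
    rw [if_neg (by omega), if_neg (by omega)]
  have q2' : legendreSym q 2 = -1 := by
    rw [legendreSym.at_two hS.q2, ZMod.χ₈_nat_eq_if_mod_eight]
    have := hR.mq
    rw [if_neg (by omega), if_neg (by omega)]
  have q32 : ∀ c : ℤ, legendreSym q (-(-(32 * p) * c)) = -s * legendreSym q c := by
    intro c
    have e1 : (-(-(32 * p) * c) : ℤ) = 2 * 2 * 2 * 2 * 2 * p * c := by ring
    rw [e1]
    simp only [legendreSym.mul, q2', hS.hqP]
    ring
  have ndq : ∀ c : ℤ, ¬ (q : ℤ) ∣ c → d = c → legendreSym q d = 1 := by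
    intro c hc hdc
    exact lq.1 (by rw [hdc]; exact hc)
  rcases hd8 with h1 | h1 | h1 | h1 | h1 | h1 | h1 | h1
  · exact Or.inl h1
  · exfalso
    rw [h1, one_mul, p2'] at lp
    norm_num at lp
  · exfalso
    have h2 := (lq.2 1 (by rw [h1]; ring)).1
    rw [q32] at h2
    rw [h1, one_mul, hS.hpQ] at lp
    rw [lp] at h2
    have h3 : legendreSym q 1 = 1 := by simp
    rw [h3] at h2
    norm_num at h2
  · exfalso
    have h2 := (lq.2 2 (by rw [h1]; ring)).1
    rw [q32, q2'] at h2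
    rw [h1, one_mul, legendreSym.mul, p2', hS.hpQ] at lp
    omega
  · exfalso
    have h2 := ndq r hqr (by rw [h1]; ring)
    rw [h1, one_mul] at lp h2
    rw [hS.hpR] at lp
    rw [hS.hqR] at h2
    omega
  · exfalso
    have h2 := ndq (2 * r) (by
      intro h
      rcases hqI.dvd_or_dvd h with h5 | h5
      · exact hq2 h5
      · exact hqr h5) (by rw [h1]; ring)
    rw [h1, one_mul, legendreSym.mul] at lp h2
    rw [p2', hS.hpR] at lp
    rw [q2', hS.hqR] at h2
    omega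
  · exfalso
    rw [h1, one_mul, legendreSym.mul, hS.hpQ, hS.hpR] at lp
    rcases s1 with h2 | h2 <;> rw [h2] at lp <;> norm_num at lp
  · right
    rw [h1]; ring

end Pool.Agent.G02.H58
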